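import Pool.Agent.Lib.MP_d80832_gt.Mod.Main

set_option autoImplicit false

/-!
# MP_d80832_gt : none of the six properties is hereditary (unconditional)

There is a countable transitive model `N` of `ZFC` and there are sets of reals `Y ⊆ X` of `N`, `Y`
uncountable in `N`, such that in `N` the space `X` has all six properties and the space `Y` has
none of them.
-/

namespace Pool.Agent.Results.MP_d80832_gt.NotHereditary

open Pool.Agent.CR (V IsTransModelZFC setR)
open Pool.Agent.HM

theorem result : ∃ N : Set V, N.Countable ∧ IsTransModelZFC N ∧ ∃ X Y : Set ℝ,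
    setR X ∈ N ∧ setR Y ∈ N ∧ Y ⊆ X ∧ UncountableIn N Y ∧ AllSix N X ∧ NoneOfSix N Y :=
  t_FI

end Pool.Agent.Results.MP_d80832_gt.NotHereditary
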